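import Pool.Agent.Run7.h782.HP.PubBrP
import Pool.Agent.Run7.h782.HP.AllP

/-!
Every very weak solution `v` of the Navier-Stokes equations on the torus in a class
`⋂ₙ L²((0, T₀); L^(2 Qₙ))`, `Qₙ ≥ 1` (for one `Qₙ = 1` all very weak solutions; Leray-Hopf solutions
are in `L² L⁶`), branches at every time `S`: it has continuations after the time `S` in the same
class, smooth except at FINITELY many times, which follow any given smooth path `w` of divergence free
fields with the same mean: `∫ Φ (sup |u - w|) dt ≤ ε` for any convex `Φ` with `Φ x = o(x²)` at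
infinity, for example `Φ x = x ^ q`, `q < 2` (for `Φ x = x²` this is false: `L² L^∞` is a class of
uniqueness).

`V = Fin 3 → ℝ` with the maximum norm. Definitions: `Orlicz`, `SmoothPath`, `SolutionOn`, `Branch` in
`Pool.Agent.Run7.h782.HP.PubBrP`; `Dist`, `VeryWeak`, `InL2Lq` in `Pool.Agent.Run7.h782.WQ.PubS`.
-/

set_option autoImplicit false

open MeasureTheory Set Filter Topology
open scoped ContDiff

namespace Pool.Agent.Results.MP_3d7a54_an.Branching

open H459R3.NS Pool.Agent.Run7.h782.GD Pool.Agent.Run7.h782.GS Pool.Agent.Run7.h782.WQ.Inst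
open Pool.Agent.Run7.h782.HP Pool.Agent.Run7.h782.HP.Inst

theorem result (ν : ℝ) (hν : 0 < ν) (m : V) (c : K3 → C3) (hc : Dist c)
    (hm : ∀ i, c 0 i = ((m i : ℝ) : ℂ)) (Q : ℕ → ℝ) (hQ : ∀ n, 1 ≤ Q n) (T₀ : ℝ) (hT₀ : 0 < T₀)
    (v : ℝ → V → V) (hv : VeryWeak ν T₀ c v) (hvq : ∀ n, InL2Lq T₀ v (2 * Q n)) (S T : ℝ)
    (hS : S ∈ Icc 0 T₀) (hT : S < T) (w : ℝ → V → V) (hw : SmoothPath m w) (Φ : ℝ → ℝ)
    (hΦ : Orlicz Φ) (ε : ℝ) (hε : 0 < ε) :
    ∃ (F : Finset ℝ) (u : ℝ → V → V) (p : ℝ → V → ℝ), Branch ν c Q v S m w T Φ ε F u p :=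
  branchP stmBrP hν hc hm hQ hT₀ hv hvq hS hT hw hΦ hε

end Pool.Agent.Results.MP_3d7a54_an.Branching
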